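import Pool.Agent.Lib.MP_aafae6_an.TG.Space

/-!
The space does not embed in a weakly compactly generated space.
-/

open Filter Topology

namespace Pool.Agent.Lib.MP_aafae6_an.TG

variable {Z : Type*} [NormedAddCommGroup Z] [NormedSpace ℝ Z]

/-- point evaluations -/
noncomputable def tev (u : TK) : TX →L[ℝ] ℝ := ContinuousMap.evalCLM ℝ u

lemma tev_e (u : TK) (γ : G) : tev u (e γ) = if u.1 γ = true then 1 else 0 := rfl

lemma abs_tev_le (u : TK) (y : TX) : |tev u y| ≤ ‖y‖ := y.norm_coe_le_norm u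

lemma extend_tev (T : TX →L[ℝ] Z) {c : ℝ} (hc : 0 < c) (hT : ∀ x, c * ‖x‖ ≤ ‖T x‖) (u : TK) :
    ∃ φ : Z →L[ℝ] ℝ, ‖φ‖ ≤ 1 / c ∧ ∀ x, φ (T x) = tev u x := by
  have hinj : Function.Injective (T : TX →ₗ[ℝ] Z) := by
    rw [injective_iff_map_eq_zero]
    intro x hx
    have := hT x
    rw [show T x = 0 from hx, norm_zero] at this
    exact norm_le_zero_iff.1 (by nlinarith [norm_nonneg x])
  let i := LinearEquiv.ofInjective (T : TX →ₗ[ℝ] Z) hinj
  let L : LinearMap.range (T : TX →ₗ[ℝ] Z) →ₗ[ℝ] ℝ := (tev u : TX →ₗ[ℝ] ℝ).comp i.symm.toLinearMap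
  have hL : ∀ z, ‖L z‖ ≤ 1 / c * ‖z‖ := by
    intro z
    obtain ⟨x, rfl⟩ := i.surjective z
    have h1 : L (i x) = tev u x := by simp [L]
    have h2 : ‖i x‖ = ‖T x‖ := rfl
    rw [h1, h2, Real.norm_eq_abs, one_div, ← div_eq_inv_mul, le_div_iff₀ hc]
    have := abs_tev_le u x
    have := hT x
    nlinarith
  obtain ⟨g, hg1, hg2⟩ := exists_extension_norm_eq _ (L.mkContinuous (1 / c) hL)
  refine ⟨g, hg2 ▸ L.mkContinuous_norm_le (by positivity) hL, fun x => ?_⟩
  have h1 : g (T x) = L (i x) := hg1 (i x)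
  rw [h1]
  simp [L]

/-- In a countable colouring of the Baire space one colour meets infinitely many children of
one node. -/
lemma exists_fan (p : G → ℕ) :
    ∃ (r n : ℕ) (α : G), {j | ∃ δ, ag δ α n ∧ δ n = j ∧ p δ = r}.Infinite := by
  by_contra hcon
  push Not at hcon
  have : ∀ (n : ℕ) (α : G), ∃ j, ∀ δ, ag δ α n → δ n = j → p δ ≠ n := by
    intro n α
    obtain ⟨j, hj⟩ := (hcon n n α).exists_notMem
    exact ⟨j, fun δ h1 h2 h3 => hj ⟨δ, h1, h2, h3⟩⟩
  choose j hj using this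
  let g : ℕ → G := fun n => Nat.rec (fun _ => 0) (fun n a => Function.update a n (j n a)) n
  let γ : G := fun n => j n (g n)
  have hag : ∀ n, ag γ (g n) n := by
    intro n
    induction n with
    | zero => intro i hi; omega
    | succ n ih =>
      intro i hi
      show γ i = Function.update (g n) n (j n (g n)) i
      rcases Nat.lt_succ_iff_lt_or_eq.1 hi with h | rfl
      · rw [Function.update_of_ne h.ne]
        exact ih i h
      · rw [Function.update_self]
  exact hj (p γ) (g (p γ)) γ (hag _) rfl rfl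

theorem tnot_embed (K : Set Z) (hK : IsCompact ((toWeakSpace ℝ Z) '' K))
    (hd : Dense ((Submodule.span ℝ K : Submodule ℝ Z) : Set Z)) (T : TX →L[ℝ] Z) {c : ℝ}
    (hc : 0 < c) (hT : ∀ x, c * ‖x‖ ≤ ‖T x‖) : False := by
  classical
  have happ : ∀ β : G, ∃ z ∈ Submodule.span ℝ K, ‖T (e β) - z‖ ≤ c / 4 := by
    intro β
    obtain ⟨z, hz, h⟩ := Metric.mem_closure_iff.1 (hd (T (e β))) (c / 4) (by positivity)
    exact ⟨z, hz, by rw [← dist_eq_norm]; exact h.le⟩
  choose z hz hzn using happ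
  choose p hp using fun β => Univ.mem_piece (hz β)
  obtain ⟨r, n, α, hinf⟩ := exists_fan fun β => Nat.pair (p β).1 (p β).2
  choose δ h1 h2 h3 using fun i : ℕ => (hinf.natEmbedding _ i).2
  have hoff : ∀ i j, i ≠ j → Off (δ i) n (δ j) := by
    intro i j hij
    refine ⟨fun l hl => (h1 j l hl).trans (h1 i l hl).symm, fun h0 => hij ?_⟩
    rw [h2, h2] at h0
    exact ((hinf.natEmbedding _).injective (Subtype.ext h0)).symm
  have hinj : Function.Injective δ := by
    intro i j hij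
    by_contra h0
    exact (hoff i j h0).2 (by rw [hij])
  have hpc : ∀ i, z (δ i) ∈ Univ.piece K (p (δ 0)).1 (p (δ 0)).2 := by
    intro i
    have h4 := Nat.pair_eq_pair.1 ((h3 i).trans (h3 0).symm)
    rw [← h4.1, ← h4.2]
    exact hp (δ i)
  let a : ℕ → TK := fun m => ⟨fun γ => decide (∃ i, i < m ∧ δ i = γ), n, by
    intro _ _ g1 g2 hij
    obtain ⟨i, -, rfl⟩ := of_decide_eq_true g1
    obtain ⟨j, -, rfl⟩ := of_decide_eq_true g2
    exact hoff i j fun h0 => hij (by rw [h0])⟩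
  have ha1 : ∀ m i, i < m → tev (a m) (e (δ i)) = 1 := by
    intro m i hi
    rw [tev_e, if_pos (decide_eq_true ⟨i, hi, rfl⟩)]
  have ha0 : ∀ m i, m ≤ i → tev (a m) (e (δ i)) = 0 := by
    intro m i hi
    rw [tev_e, if_neg]
    intro h0
    obtain ⟨j, hj, h0⟩ := of_decide_eq_true h0
    rw [hinj h0] at hj
    exact absurd hj (not_lt.2 hi)
  obtain ⟨w, hw⟩ := Univ.piece_limit hK _ _ (hyperfilter ℕ) (fun i => z (δ i))
    (Eventually.of_forall hpc)
  choose φ hφ1 hφ2 using fun m : ℕ => extend_tev T hc hT (a m)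
  obtain ⟨ψ, hψ1, hψ2⟩ := Univ.dual_limit φ hφ1 (hyperfilter ℕ)
  have hclose : ∀ χ : Z →L[ℝ] ℝ, ‖χ‖ ≤ 1 / c → ∀ β, |χ (T (e β)) - χ (z β)| ≤ 1 / 4 := by
    intro χ hχ β
    rw [← map_sub]
    calc |χ (T (e β) - z β)| ≤ ‖χ‖ * ‖T (e β) - z β‖ := χ.le_opNorm _
      _ ≤ 1 / c * (c / 4) := mul_le_mul hχ (hzn β) (norm_nonneg _) (by positivity)
      _ = 1 / 4 := by field_simp
  have hone : ∀ i, ψ (T (e (δ i))) = 1 := by
    intro i
    refine tendsto_nhds_unique (hψ2 _) (tendsto_const_nhds.congr' ?_)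
    have : ∀ᶠ m in (hyperfilter ℕ : Filter ℕ), i < m :=
      Nat.hyperfilter_le_atTop (eventually_gt_atTop i)
    filter_upwards [this] with m hm
    rw [hφ2, ha1 m i hm]
  have hlower : 3 / 4 ≤ ψ w := by
    refine ge_of_tendsto' (hw ψ) fun i => ?_
    have := abs_le.1 (hclose ψ hψ1 (δ i))
    rw [hone i] at this
    linarith
  have hupper : ψ w ≤ 1 / 4 := by
    refine le_of_tendsto' (hψ2 w) fun m => ?_
    refine le_of_tendsto (hw (φ m)) ?_
    have : ∀ᶠ i in (hyperfilter ℕ : Filter ℕ), m ≤ i :=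
      Nat.hyperfilter_le_atTop (eventually_ge_atTop m)
    filter_upwards [this] with i hi
    have := abs_le.1 (hclose (φ m) (hφ1 m) (δ i))
    rw [hφ2, ha0 m i hi] at this
    linarith
  linarith

end Pool.Agent.Lib.MP_aafae6_an.TG
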