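import Pool.Agent.Lib.MP_aafae6_an.TG.Smooth

/-!
A Banach space generated by a family that is weakly null off every branch is an upper
semicontinuous compact valued image of the Baire space in its weak topology.
-/

open Filter Topology

namespace Pool.Agent.Lib.MP_aafae6_an.TG

variable {E : Type*} [NormedAddCommGroup E] [NormedSpace ℝ E] {ι : Type*}

/-- weak convergence -/
def WT (l : Filter ι) (z : ι → E) (w : E) : Prop :=
  ∀ f : E →L[ℝ] ℝ, Tendsto (fun t => f (z t)) l (𝓝 (f w))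

lemma WT.tendsto {l : Filter ι} {z : ι → E} {w : E} (h : WT l z w) :
    Tendsto (fun t => toWeakSpace ℝ E (z t)) l (𝓝 (toWeakSpace ℝ E w)) := by
  have hi : IsInducing fun (x : WeakSpace ℝ E) (f : StrongDual ℝ E) =>
      (topDualPairing ℝ E).flip x f := ⟨rfl⟩
  rw [hi.tendsto_nhds_iff, tendsto_pi_nhds]
  exact h

/-- every functional is small on the generators near a branch -/
def Near (x : G → E) : Prop :=
  ∀ (f : E →L[ℝ] ℝ) (γ : G) (ε : ℝ), 0 < ε → ∃ k, ∀ δ, ag δ γ k → x δ ≠ x γ → |f (x δ)| < ε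

lemma Lev.near {x : G → E} (hx : Lev x) : Near x := by
  intro f γ ε hε
  obtain ⟨C, O, hO, hC⟩ := hx γ
  obtain ⟨n, hn⟩ := (finite_of_card (s := {m | ∃ δ, O m δ ∧ ε ≤ |f (x δ)|}) hε (hC f ε)).bddAbove
  obtain ⟨k, hk⟩ := hO (n + 1)
  refine ⟨k, fun δ h1 h2 => ?_⟩
  obtain ⟨m, hm, ho⟩ := hk δ h1 h2
  by_contra h3
  have := hn (show m ∈ {m | ∃ δ, O m δ ∧ ε ≤ |f (x δ)|} from ⟨δ, ho, not_lt.1 h3⟩)
  omega

lemma lim_gen {x : G → E} (hx : Near x) (U : Ultrafilter ι) {γ : ι → G} {γ₀ : G}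
    (hγ : Tendsto γ U (𝓝 γ₀)) {y : ι → E} (hy : ∀ t, y t = x (γ t) ∨ y t = 0) :
    ∃ w, (w = x γ₀ ∨ w = 0) ∧ WT U y w := by
  rcases U.em (fun t => y t = x γ₀) with h | h
  · refine ⟨x γ₀, Or.inl rfl, fun f => tendsto_const_nhds.congr' ?_⟩
    filter_upwards [h] with t ht
    rw [ht]
  · refine ⟨0, Or.inr rfl, fun f => Metric.tendsto_nhds.2 fun ε hε => ?_⟩
    obtain ⟨k, hk⟩ := hx f γ₀ ε hε
    have hag : ∀ᶠ t in (U : Filter ι), ag (γ t) γ₀ k := by
      refine (eventually_all_finite (Set.finite_lt_nat k)).2 fun i _ => ?_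
      have := tendsto_pi_nhds.1 hγ i
      rwa [nhds_discrete, tendsto_pure] at this
    filter_upwards [h, hag] with t h1 h2
    rw [map_zero, Real.dist_eq, sub_zero]
    rcases hy t with h3 | h3
    · rw [h3] at h1 ⊢
      exact hk _ h2 h1
    · rw [h3, map_zero, abs_zero]
      exact hε

/-- codes of sequences of finite linear combinations -/
abbrev Par := ℕ → ℕ × (ℕ → ℝ × G)

lemma polish_pi (A : Type) [TopologicalSpace A] [PolishSpace A] : PolishSpace (ℕ → A) :=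
  inferInstance

lemma polish_par : PolishSpace Par := polish_pi _

/-- the combination coded at place `n`, with the vectors `y` -/
noncomputable def cmb (α : Par) (n : ℕ) (y : ℕ → E) : E :=
  ∑ i ∈ Finset.range (α n).1, ((α n).2 i).1 • y i

/-- the points approximated by the coded combinations, some terms being dropped -/
def val (x : G → E) (α : Par) : Set E :=
  {z | ∀ n, ∃ y : ℕ → E, (∀ i, y i = x ((α n).2 i).2 ∨ y i = 0) ∧ ‖z - cmb α n y‖ ≤ (1 / 2) ^ n}

lemma zero_mem_val (x : G → E) (α : Par) : (0 : E) ∈ val x α := fun n =>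
  ⟨fun _ => 0, fun _ => Or.inr rfl, by simp [cmb]⟩

lemma exists_val {x : G → E}
    (hd : Dense ((Submodule.span ℝ (Set.range x) : Submodule ℝ E) : Set E)) (z : E) :
    ∃ α, z ∈ val x α := by
  have : ∀ n : ℕ, ∃ p : ℕ × (ℕ → ℝ × G),
      ‖z - ∑ i ∈ Finset.range p.1, (p.2 i).1 • x (p.2 i).2‖ ≤ (1 / 2) ^ n := by
    intro n
    obtain ⟨w, hw, h⟩ := Metric.mem_closure_iff.1 (hd z) ((1 / 2) ^ n) (by positivity)
    obtain ⟨m, c, g, rfl⟩ := Submodule.mem_span_set'.1 hw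
    choose γ hγ using fun i => (g i).2
    refine ⟨(m, fun i => if h : i < m then (c ⟨i, h⟩, γ ⟨i, h⟩) else (0, 0)), ?_⟩
    rw [dist_eq_norm] at h
    refine le_of_eq_of_le ?_ h.le
    rw [Finset.sum_range]
    simp [hγ]
  choose α hα using this
  exact ⟨α, fun n => ⟨fun i => x ((α n).2 i).2, fun _ => Or.inl rfl, hα n⟩⟩

lemma lim_val [CompleteSpace E] {x : G → E} (hx : Near x) (U : Ultrafilter ι) {β : ι → Par}
    {α : Par} (hβ : Tendsto β U (𝓝 α)) {z : ι → E} (hz : ∀ t, z t ∈ val x (β t)) :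
    ∃ w ∈ val x α, WT U z w := by
  choose y hy1 hy2 using hz
  have hβn : ∀ n, Tendsto (fun t => β t n) U (𝓝 (α n)) := tendsto_pi_nhds.1 hβ
  have hβi : ∀ n i, Tendsto (fun t => (β t n).2 i) U (𝓝 ((α n).2 i)) := fun n =>
    tendsto_pi_nhds.1 (hβn n).snd_nhds
  choose v hv1 hv2 using fun n i =>
    lim_gen hx U (hβi n i).snd_nhds (y := fun t => y t n i) fun t => hy1 t n i
  have hs : ∀ n, WT U (fun t => cmb (β t) n (y t n)) (cmb α n (v n)) := by
    intro n f
    have h1 : ∀ᶠ t in (U : Filter ι), (β t n).1 = (α n).1 := by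
      have := (hβn n).fst_nhds
      rwa [nhds_discrete, tendsto_pure] at this
    have h2 : Tendsto (fun t => ∑ i ∈ Finset.range (α n).1, ((β t n).2 i).1 * f (y t n i)) U
        (𝓝 (∑ i ∈ Finset.range (α n).1, ((α n).2 i).1 * f (v n i))) :=
      tendsto_finsetSum _ fun i _ => (hβi n i).fst_nhds.mul (hv2 n i f)
    simp only [cmb, map_sum, map_smul, smul_eq_mul]
    refine h2.congr' ?_
    filter_upwards [h1] with t ht
    rw [ht]
  have hdist : ∀ n m, ‖cmb α n (v n) - cmb α m (v m)‖ ≤ (1 / 2) ^ n + (1 / 2) ^ m := by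
    intro n m
    obtain ⟨g, hg, hgx⟩ := exists_dual_vector'' ℝ (cmb α n (v n) - cmb α m (v m))
    have h1 : g (cmb α n (v n) - cmb α m (v m)) = ‖cmb α n (v n) - cmb α m (v m)‖ := hgx
    rw [← h1, map_sub]
    refine le_of_tendsto' ((hs n g).sub (hs m g)) fun t => ?_
    rw [← map_sub]
    refine (le_abs_self _).trans ((g.le_of_opNorm_le hg _).trans ?_)
    rw [one_mul]
    have h2 := norm_sub_le_norm_sub_add_norm_sub (cmb (β t) n (y t n)) (z t) (cmb (β t) m (y t m))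
    rw [norm_sub_rev (cmb (β t) n (y t n)) (z t)] at h2
    linarith [hy2 t n, hy2 t m]
  have hc : CauchySeq fun n => cmb α n (v n) := by
    refine cauchySeq_of_le_geometric (1 / 2) 2 (by norm_num) fun n => ?_
    rw [dist_eq_norm]
    refine (hdist n (n + 1)).trans ?_
    have : (0 : ℝ) < (1 / 2) ^ n := by positivity
    rw [pow_succ]
    linarith
  obtain ⟨w, hw⟩ := cauchySeq_tendsto_of_complete hc
  have h0 : Tendsto (fun m : ℕ => (1 / 2 : ℝ) ^ m) atTop (𝓝 0) :=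
    tendsto_pow_atTop_nhds_zero_of_lt_one (by norm_num) (by norm_num)
  have hwn : ∀ n, ‖w - cmb α n (v n)‖ ≤ (1 / 2) ^ n := by
    intro n
    have := le_of_tendsto_of_tendsto' (hw.sub_const (cmb α n (v n))).norm
      (h0.add_const ((1 / 2 : ℝ) ^ n)) fun m => hdist m n
    rwa [zero_add] at this
  refine ⟨w, fun n => ⟨v n, hv1 n, hwn n⟩, fun f => Metric.tendsto_nhds.2 fun ε hε => ?_⟩
  obtain ⟨n, hn⟩ := ((h0.const_mul ‖f‖).eventually
    (gt_mem_nhds (show ‖f‖ * 0 < ε / 3 by rw [mul_zero]; positivity))).exists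
  filter_upwards [Metric.tendsto_nhds.1 (hs n f) (ε / 3) (by positivity)] with t ht
  rw [Real.dist_eq] at ht ⊢
  have e1 : |f (z t - cmb (β t) n (y t n))| ≤ ‖f‖ * (1 / 2) ^ n :=
    f.le_of_opNorm_le_of_le le_rfl (hy2 t n)
  have e2 : |f (w - cmb α n (v n))| ≤ ‖f‖ * (1 / 2) ^ n :=
    f.le_of_opNorm_le_of_le le_rfl (hwn n)
  rw [map_sub] at e1 e2
  have e3 := abs_le.1 e1
  have e4 := abs_le.1 e2
  have e5 := abs_lt.1 ht
  rw [abs_lt]
  constructor <;> linarith

theorem usco [CompleteSpace E] {x : G → E} (hx : Near x)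
    (hd : Dense ((Submodule.span ℝ (Set.range x) : Submodule ℝ E) : Set E)) :
    ∃ φ : (ℕ → ℕ) → Set (WeakSpace ℝ E), (∀ α, (φ α).Nonempty ∧ IsCompact (φ α)) ∧
      (∀ α U, IsOpen U → φ α ⊆ U → ∀ᶠ β in 𝓝 α, φ β ⊆ U) ∧ ⋃ α, φ α = Set.univ := by
  classical
  have := polish_par
  obtain ⟨s, hs1, hs2⟩ := PolishSpace.exists_nat_nat_continuous_surjective Par
  refine ⟨fun α => toWeakSpace ℝ E '' val x (s α), fun α => ⟨⟨_, 0, zero_mem_val x _, rfl⟩, ?_⟩,
    fun α U hU hα => ?_, ?_⟩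
  · refine isCompact_iff_ultrafilter_le_nhds'.2 fun V hV => ?_
    let z : WeakSpace ℝ E → E := fun u =>
      if (toWeakSpace ℝ E).symm u ∈ val x (s α) then (toWeakSpace ℝ E).symm u else 0
    obtain ⟨w, hw1, hw2⟩ := lim_val hx V (β := fun _ => s α) tendsto_const_nhds (z := z) (by
      intro u
      simp only [z]
      split_ifs with h
      · exact h
      · exact zero_mem_val x _)
    refine ⟨_, ⟨w, hw1, rfl⟩, ?_⟩
    have h1 : Tendsto (fun u : WeakSpace ℝ E => u) V (𝓝 (toWeakSpace ℝ E w)) := by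
      refine hw2.tendsto.congr' ?_
      filter_upwards [hV]
      rintro _ ⟨u, hu, rfl⟩
      simp [z, hu]
    exact h1
  · by_contra hcon
    rw [not_eventually] at hcon
    have := frequently_iff_neBot.1 hcon
    obtain ⟨V, hV⟩ := Ultrafilter.exists_le
      (𝓝 α ⊓ 𝓟 {β | ¬ toWeakSpace ℝ E '' val x (s β) ⊆ U})
    have hch : ∀ β : ℕ → ℕ, ∃ z ∈ val x (s β),
        ¬ toWeakSpace ℝ E '' val x (s β) ⊆ U → toWeakSpace ℝ E z ∉ U := by
      intro β
      by_cases h : toWeakSpace ℝ E '' val x (s β) ⊆ U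
      · exact ⟨0, zero_mem_val x _, fun h' => absurd h h'⟩
      · obtain ⟨_, ⟨z, hz, rfl⟩, hzU⟩ := Set.not_subset.1 h
        exact ⟨z, hz, fun _ => hzU⟩
    choose z hz1 hz2 using hch
    obtain ⟨w, hw1, hw2⟩ := lim_val hx V (β := s)
      ((hs1.tendsto α).mono_left (hV.trans inf_le_left)) hz1
    have h1 := hw2.tendsto.eventually (hU.mem_nhds (hα ⟨w, hw1, rfl⟩))
    have h2 : ∀ᶠ β in (V : Filter (ℕ → ℕ)), ¬ toWeakSpace ℝ E '' val x (s β) ⊆ U :=
      le_principal_iff.1 (hV.trans inf_le_right)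
    obtain ⟨β, h3, h4⟩ := (h1.and h2).exists
    exact hz2 β h4 h3
  · refine Set.eq_univ_of_forall fun u => ?_
    obtain ⟨α, hα⟩ := exists_val hd ((toWeakSpace ℝ E).symm u)
    obtain ⟨β, rfl⟩ := hs2 α
    exact Set.mem_iUnion.2 ⟨β, _, hα, (toWeakSpace ℝ E).apply_symm_apply u⟩

end Pool.Agent.Lib.MP_aafae6_an.TG
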