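import Pool.Agent.Lib.MP_aafae6_an.TG.Kan
import Pool.Agent.Lib.MP_aafae6_an.TG.Embed

/-!
The space of continuous functions with the new norm as its norm.
-/

open Filter Topology

namespace Pool.Agent.Lib.MP_aafae6_an.TG

/-- The function space with the new norm. -/
def TN : Type := TX

noncomputable instance : AddCommGroup TN := inferInstanceAs (AddCommGroup TX)

noncomputable instance : Module ℝ TN := inferInstanceAs (Module ℝ TX)

noncomputable instance : Norm TN := ⟨fun x => tdat.N (show TX from x)⟩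

theorem tcore : NormedSpace.Core ℝ TN where
  norm_nonneg x := tdat.N_nonneg x
  norm_smul r x := tdat.N_smul r x
  norm_triangle x y := tdat.N_add x y
  norm_eq_zero_iff x := ⟨fun h => norm_le_zero_iff.1 ((tdat.norm_le_N x).trans h.le), fun h => by
    have h1 := tdat.N_smul 0 0
    rw [zero_smul, abs_zero, zero_mul] at h1
    exact h ▸ h1⟩

noncomputable instance : NormedAddCommGroup TN := NormedAddCommGroup.ofCore tcore

noncomputable instance : NormedSpace ℝ TN := NormedSpace.ofCore tcore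

/-- The identity map. -/
noncomputable def idT : TX ≃L[ℝ] TN :=
  LinearEquiv.toContinuousLinearEquivOfBounds (LinearEquiv.refl ℝ TX) tdat.K 1
    (fun x => tdat.N_le_norm x) fun x => (tdat.norm_le_N x).trans (one_mul _).ge

instance : CompleteSpace TN :=
  (idT.toContinuousLinearMap.isUniformEmbedding_of_bound (K := 1) fun x =>
    (tdat.norm_le_N x).trans (one_mul _).ge).isUniformInducing.completeSpace_congr
      idT.surjective |>.1 inferInstance

theorem tenv_eq (Y : Submodule ℝ (StrongDual ℝ TN)) (x : TX) :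
    sSup {r : ℝ | ∃ f ∈ Y, ‖f‖ ≤ 1 ∧ f (idT x) = r} =
      tdat.env (Y.map ((ContinuousLinearMap.compL ℝ TX TN ℝ).flip idT).toLinearMap) x := by
  refine congrArg sSup (Set.ext fun r => ⟨?_, ?_⟩)
  · rintro ⟨f, hf, h1, rfl⟩
    refine ⟨_, ⟨f, hf, rfl⟩, fun z => ?_, rfl⟩
    exact (le_abs_self _).trans ((f.le_of_opNorm_le h1 (idT z)).trans (one_mul _).le)
  · rintro ⟨_, ⟨f, hf, rfl⟩, h1, rfl⟩
    refine ⟨f, hf, f.opNorm_le_bound zero_le_one fun z => ?_, rfl⟩
    have h2 : ∀ w : TN, f w ≤ ‖w‖ := fun w => h1 (idT.symm w)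
    rw [one_mul]
    exact abs_le.2 ⟨by simpa [neg_le] using h2 (-z), h2 z⟩

theorem smooth (Y : Submodule ℝ (StrongDual ℝ TN)) (x : TN)
    (hx : 0 < sSup {r : ℝ | ∃ f ∈ Y, ‖f‖ ≤ 1 ∧ f x = r}) :
    ∃ g : StrongDual ℝ TN, ∀ h : TN,
      HasLineDerivAt ℝ (fun y => sSup {r : ℝ | ∃ f ∈ Y, ‖f‖ ≤ 1 ∧ f y = r}) (g h) x h := by
  obtain ⟨x, rfl⟩ := idT.surjective x
  obtain ⟨g, hg⟩ := tsmooth _ x (tenv_eq Y x ▸ hx)
  refine ⟨g.comp idT.symm.toContinuousLinearMap, fun h => ?_⟩
  obtain ⟨h, rfl⟩ := idT.surjective h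
  have h1 := hg h
  simp only [← tenv_eq] at h1
  exact h1

theorem not_equiv {Z : Type*} [NormedAddCommGroup Z] [NormedSpace ℝ Z] (K : Set Z)
    (hK : IsCompact ((toWeakSpace ℝ Z) '' K))
    (hd : Dense ((Submodule.span ℝ K : Submodule ℝ Z) : Set Z)) (S : Submodule ℝ Z)
    (i : TN ≃L[ℝ] S) : False := by
  let i' := idT.trans i
  refine tnot_embed K hK hd (S.subtypeL.comp i'.toContinuousLinearMap)
    (c := (‖i'.symm.toContinuousLinearMap‖ + 1)⁻¹) (by positivity) fun x => ?_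
  have h1 := i'.symm.toContinuousLinearMap.le_opNorm (i' x)
  rw [inv_mul_le_iff₀ (by positivity), add_mul, one_mul]
  exact ((congrArg norm (i'.symm_apply_apply x)).ge.trans h1).trans
    (le_add_of_nonneg_right (norm_nonneg _))

theorem near_idT : Near fun γ => idT (mon γ) := by
  intro f γ ε hε
  obtain ⟨k, hk⟩ := lev_mon.near (f.comp idT.toContinuousLinearMap) γ ε hε
  exact ⟨k, fun δ h1 h2 => hk δ h1 fun h3 => h2 (congrArg idT h3)⟩

theorem dense_idT :
    Dense ((Submodule.span ℝ (Set.range fun γ => idT (mon γ)) : Submodule ℝ TN) : Set TN) := by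
  refine (idT.surjective.denseRange.dense_image idT.continuous dense_mon).mono ?_
  rintro _ ⟨y, hy, rfl⟩
  have h1 := Submodule.apply_mem_span_image_of_mem_span idT.toLinearEquiv.toLinearMap hy
  rw [← Set.range_comp] at h1
  exact h1

theorem kan : ∃ φ : (ℕ → ℕ) → Set (WeakSpace ℝ TN), (∀ α, (φ α).Nonempty ∧ IsCompact (φ α)) ∧
    (∀ α U, IsOpen U → φ α ⊆ U → ∀ᶠ β in 𝓝 α, φ β ⊆ U) ∧ ⋃ α, φ α = Set.univ :=
  usco near_idT dense_idT

end Pool.Agent.Lib.MP_aafae6_an.TG
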