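import Pool.Agent.Lib.MP_aafae6_an.TG.Space

/-!
The new norm: one supremum seminorm for every cone of the Baire space.
-/

open Filter Topology

namespace Pool.Agent.Lib.MP_aafae6_an.TG

section general

variable {E : Type*} [NormedAddCommGroup E] [NormedSpace ℝ E]

lemma dual_lim {ι : Type*} (φ : ι → E →L[ℝ] ℝ) {C : ℝ} (U : Ultrafilter ι)
    (hφ : ∀ᶠ i in (U : Filter ι), ‖φ i‖ ≤ C) :
    ∃ ψ : E →L[ℝ] ℝ, ∀ z, Tendsto (fun i => φ i z) U (𝓝 (ψ z)) := by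
  obtain ⟨w, -, hw⟩ := (WeakDual.isCompact_closedBall (𝕜 := ℝ) (E := E) 0 C).ultrafilter_le_nhds'
    (U.map fun i => StrongDual.toWeakDual (φ i)) (by
      rw [Ultrafilter.mem_map]
      filter_upwards [hφ] with i hi
      simpa using hi)
  refine ⟨WeakDual.toStrongDual w, fun z => ?_⟩
  exact ((WeakDual.eval_continuous z).tendsto w).comp hw

lemma tendsto_of_dense {ι : Type*} {l : Filter ι} (φ : ι → E →L[ℝ] ℝ) (ψ : E →L[ℝ] ℝ) {K : ℝ}
    (hK : ∀ᶠ i in l, ‖φ i‖ ≤ K) {s : Set E}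
    (hs : Dense ((Submodule.span ℝ s : Submodule ℝ E) : Set E))
    (h : ∀ y ∈ s, Tendsto (fun i => φ i y) l (𝓝 (ψ y))) (x : E) :
    Tendsto (fun i => φ i x) l (𝓝 (ψ x)) := by
  have h1 : ∀ y ∈ Submodule.span ℝ s, Tendsto (fun i => φ i y) l (𝓝 (ψ y)) := by
    intro y hy
    induction hy using Submodule.span_induction with
    | mem x hx => exact h x hx
    | zero => simpa using tendsto_const_nhds
    | add x y _ _ hx hy => simpa only [map_add] using hx.add hy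
    | smul a x _ hx => simpa only [map_smul, smul_eq_mul] using hx.const_mul a
  rw [Metric.tendsto_nhds]
  intro ε hε
  have hM : 0 < |K| + ‖ψ‖ + 1 := by positivity
  obtain ⟨y, hy, hd⟩ := Metric.mem_closure_iff.1 (hs x) (ε / 2 / (|K| + ‖ψ‖ + 1)) (by positivity)
  rw [dist_eq_norm, lt_div_iff₀ hM] at hd
  filter_upwards [hK, Metric.tendsto_nhds.1 (h1 y hy) (ε / 2) (by positivity)] with i hi h2
  rw [Real.dist_eq] at h2 ⊢
  have e1 : |φ i (x - y)| ≤ |K| * ‖x - y‖ :=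
    (φ i).le_of_opNorm_le (hi.trans (le_abs_self K)) (x - y)
  have e2 : |ψ (x - y)| ≤ ‖ψ‖ * ‖x - y‖ := ψ.le_opNorm (x - y)
  rw [map_sub] at e1 e2
  have e3 := abs_le.1 e1
  have e4 := abs_le.1 e2
  have e5 := abs_lt.1 h2
  have e6 := norm_nonneg (x - y)
  rw [abs_lt]
  constructor <;> nlinarith

end general

lemma both_big {a b c d t η : ℝ} (ht : 0 < t) (h1 : η ≤ t) (h2 : η ≤ 7 * t ^ 2)
    (h : 8 * t ≤ |a - b|) (ha : a ^ 2 ≤ c ^ 2 + η) (hb : b ^ 2 ≤ d ^ 2 + η) (h3 : |c - d| ≤ η) :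
    2 * t ≤ |c| ∧ 2 * t ≤ |d| := by
  have aux : ∀ u v : ℝ, 4 * t ≤ |u| → u ^ 2 ≤ v ^ 2 + η → 3 * t ≤ |v| := by
    intro u v hu huv
    by_contra hv
    have e1 := sq_abs u
    have e2 := sq_abs v
    have e3 := abs_nonneg v
    nlinarith [not_le.1 hv]
  have e1 := abs_sub a b
  have e2 := abs_sub_abs_le_abs_sub c d
  have e3 := abs_sub_abs_le_abs_sub d c
  rw [abs_sub_comm d c] at e3
  rcases le_total |a| |b| with hab | hab
  · have := aux b d (by linarith) hb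
    constructor <;> linarith
  · have := aux a c (by linarith) ha
    constructor <;> linarith

abbrev Node := Σ n : ℕ, Fin n → ℕ

/-- the generators in the cone of a node -/
def cone {E : Type} [Zero E] (x : G → E) (p : Node) : Set (E × E) :=
  {a | ∃ δ : G, (∀ i : Fin p.1, δ i = p.2 i) ∧ a = (x δ, 0)}

lemma finite_of_card {s : Set ℕ} {ε B : ℝ} (hε : 0 < ε)
    (h : ∀ M : Finset ℕ, (∀ m ∈ M, m ∈ s) → M.card * ε ≤ B) : s.Finite := by
  by_contra hinf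
  obtain ⟨N, hN⟩ := exists_nat_gt (B / ε)
  obtain ⟨M, hM, hc⟩ := Set.Infinite.exists_subset_card_eq hinf N
  have := h M fun m hm => hM hm
  rw [div_lt_iff₀ hε] at hN
  rw [hc] at this
  linarith

lemma tendsto_gen {E : Type} [NormedAddCommGroup E] [NormedSpace ℝ E] {x : G → E} (hx : Lev x)
    {𝓕 : Filter (E →L[ℝ] ℝ)} {K : ℝ} (hK : ∀ᶠ f in 𝓕, ‖f‖ ≤ K)
    (h : ∀ p, Good 𝓕 (cone x p)) (U : Ultrafilter (E →L[ℝ] ℝ)) (hU : (U : Filter _) ≤ 𝓕) (γ : G)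
    {b : ℝ} (hb : Tendsto (fun g : E →L[ℝ] ℝ => g (x γ)) U (𝓝 b)) :
    Tendsto (fun f : E →L[ℝ] ℝ => f (x γ)) 𝓕 (𝓝 b) := by
  by_contra hcon
  rw [Metric.tendsto_nhds] at hcon
  push Not at hcon
  obtain ⟨ε, hε, hfr⟩ := hcon
  obtain ⟨t, ht, rfl⟩ : ∃ t : ℝ, 0 < t ∧ ε = 16 * t := ⟨ε / 16, by positivity, by ring⟩
  obtain ⟨C, O, hO, hC⟩ := hx γ
  let lev : (E →L[ℝ] ℝ) → Set ℕ := fun f => {m | ∃ δ, O m δ ∧ 2 * t ≤ |f (x δ)|}
  have step : ∀ n, ∃ m ∈ {m | ∀ᶠ g in (U : Filter _), m ∈ lev g}, n < m := by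
    intro n
    obtain ⟨k, hk⟩ := hO (n + 1)
    obtain ⟨S, hS, hS'⟩ := h ⟨k, fun i => γ i⟩ (min t (7 * t ^ 2)) (by positivity)
    obtain ⟨f, hf1, hf2⟩ := (hfr.and_eventually hS).exists
    have hev : ∀ᶠ g in (U : Filter _), ∃ m ∈ lev f, n < m ∧ m ∈ lev g := by
      filter_upwards [hU hS, Metric.tendsto_nhds.1 hb (8 * t) (by positivity)] with g hg1 hg2
      obtain ⟨_, ⟨δ, hδ, rfl⟩, a1, a2, a3, -⟩ := hS' f hf2 g hg1 g hg1
      have b1 := a1 (x γ, 0) ⟨γ, fun _ => rfl, rfl⟩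
      have b2 := a2 (x γ, 0) ⟨γ, fun _ => rfl, rfl⟩
      simp only [q, map_zero] at b1 b2 a3
      rw [Real.dist_eq] at hf1 hg2
      have hfg : 8 * t ≤ |f (x γ) - g (x γ)| := by
        have := abs_sub_le (f (x γ)) (g (x γ)) b
        linarith
      have hbig := both_big ht (min_le_left t (7 * t ^ 2)) (min_le_right t (7 * t ^ 2)) hfg
        (c := f (x δ)) (d := g (x δ)) (by linarith) (by linarith) a3
      have hne : x δ ≠ x γ := by
        intro h0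
        rw [h0] at a3
        have := min_le_left t (7 * t ^ 2)
        linarith
      obtain ⟨m, hm, ho⟩ := hk δ (fun i hi => hδ ⟨i, hi⟩) hne
      exact ⟨m, ⟨δ, ho, hbig.1⟩, hm, ⟨δ, ho, hbig.2⟩⟩
    obtain ⟨m, -, hm⟩ := (Ultrafilter.eventually_exists_mem_iff
      (finite_of_card (s := lev f) (by positivity) (hC f (2 * t)))).1 hev
    exact ⟨m, hm.mono fun g hg => hg.2, hm.exists.choose_spec.1⟩
  refine Set.infinite_of_forall_exists_gt step
    (finite_of_card (ε := 2 * t) (B := |C| * K) (by positivity) fun M hM => ?_)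
  have hall : ∀ᶠ g in (U : Filter _), ∀ m ∈ M, m ∈ lev g := (eventually_all_finset M).2 hM
  obtain ⟨g, hg1, hg2⟩ := (hall.and (hU hK)).exists
  exact (hC g (2 * t) M hg1).trans
    (mul_le_mul (le_abs_self C) hg2 (norm_nonneg _) (abs_nonneg C))

def fam : Option Node → Set (TX × TX)
  | none => {a | ‖a.1‖ ≤ 1 ∧ a.2 = 0}
  | some p => cone mon p

lemma exists_wt : ∃ c : Option Node → ℝ, (∀ i, 0 < c i) ∧
    ∀ F : Finset (Option Node), ∑ i ∈ F, c i ≤ 1 / 2 := by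
  obtain ⟨c, h1, h2⟩ := (Set.countable_univ (α := Option Node)).exists_pos_forall_sum_le
    (ε := 1 / 2) (by norm_num)
  exact ⟨c, h1, fun F => h2 F (Set.subset_univ _)⟩

noncomputable def tdat : Data TX (Option Node) where
  c := exists_wt.choose
  A := fam
  i0 := none
  c_pos := exists_wt.choose_spec.1
  c_sum := exists_wt.choose_spec.2
  A_ne := by
    rintro (_ | p)
    · exact ⟨(0, 0), by simp, rfl⟩
    · exact ⟨_, fun i => if h : i < p.1 then p.2 ⟨i, h⟩ else 0, fun i => by simp, rfl⟩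
  A_norm := by
    rintro (_ | p)
    · rintro a ⟨h1, h2⟩
      exact ⟨h1, by simp [h2]⟩
    · rintro a ⟨δ, -, rfl⟩
      exact ⟨norm_mon_le δ, by simp⟩
  A_i0 := fun _ hy => ⟨hy, rfl⟩

theorem tsmooth (Y : Submodule ℝ (TX →L[ℝ] ℝ)) (x : TX) (hρ : 0 < tdat.env Y x) :
    ∃ g : TX →L[ℝ] ℝ, ∀ h : TX, HasDerivAt (fun t : ℝ => tdat.env Y (x + t • h)) (g h) 0 := by
  have := tdat.filt_neBot Y x
  obtain ⟨U, hU⟩ := Ultrafilter.exists_le (tdat.filt Y x)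
  obtain ⟨ψ, hψ⟩ := dual_lim (fun f : TX →L[ℝ] ℝ => f) U (hU (tdat.filt_norm Y x))
  refine tdat.gateaux Y x fun h => Tendsto.cauchy_map (a := ψ h) ?_
  refine tendsto_of_dense (fun f : TX →L[ℝ] ℝ => f) ψ (tdat.filt_norm Y x) dense_mon ?_ h
  rintro _ ⟨γ, rfl⟩
  exact tendsto_gen lev_mon (tdat.filt_norm Y x) (fun p => tdat.good Y x hρ (some p)) U hU γ (hψ _)

end Pool.Agent.Lib.MP_aafae6_an.TG
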