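import Pool.Agent.Lib.MP_aafae6_an.Univ

/-!
The compact space of the subsets of the Baire space whose points all split at one level, and the
monomials in the coordinate functions.
-/

open Filter Topology

namespace Pool.Agent.Lib.MP_aafae6_an.TG

abbrev G := ℕ → ℕ

/-- agreement below `n` -/
def ag (β γ : G) (n : ℕ) : Prop := ∀ i < n, β i = γ i

/-- `δ` leaves `γ` at level `m` -/
def Off (γ : G) (m : ℕ) (δ : G) : Prop := ag δ γ m ∧ δ m ≠ γ m

/-- any two points of `a` split at the same level -/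
def Adm (a : G → Bool) : Prop := ∃ n, ∀ γ δ, a γ = true → a δ = true → γ ≠ δ → Off γ n δ

/-- the compact space -/
abbrev TK := {a : G → Bool // Adm a}

lemma exists_off {γ δ : G} {k : ℕ} (h : ag δ γ k) (hne : δ ≠ γ) : ∃ m, k ≤ m ∧ Off γ m δ := by
  classical
  have hex : ∃ m, δ m ≠ γ m := Function.ne_iff.1 hne
  refine ⟨Nat.find hex, ?_, fun i hi => ?_, Nat.find_spec hex⟩
  · by_contra hlt
    exact Nat.find_spec hex (h _ (not_le.1 hlt))
  · exact not_not.1 (Nat.find_min hex hi)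

lemma off_unique {γ δ : G} {m n : ℕ} (h1 : Off γ m δ) (h2 : Off γ n δ) : m = n := by
  rcases lt_trichotomy m n with h | h | h
  · exact absurd (h2.1 m h) h1.2
  · exact h
  · exact absurd (h1.1 n h) h2.2

lemma isClosed_adm : IsClosed {a : G → Bool | Adm a} := by
  refine isOpen_compl_iff.1 (isOpen_iff_eventually.2 fun a ha => ?_)
  have hev : ∀ γ, ∀ᶠ b in 𝓝 a, b γ = a γ := by
    intro γ
    have := (continuous_apply γ).tendsto a
    rwa [nhds_discrete (α := Bool), tendsto_pure] at this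
  have hn : ∀ n, ∃ γ δ, a γ = true ∧ a δ = true ∧ γ ≠ δ ∧ ¬ Off γ n δ := by
    intro n
    by_contra hcon
    push Not at hcon
    exact ha ⟨n, hcon⟩
  obtain ⟨γ₀, δ₀, h1, h2, h3, -⟩ := hn 0
  obtain ⟨n₀, -, h4⟩ := exists_off (γ := γ₀) (δ := δ₀) (k := 0) (fun i hi => absurd hi (by omega))
    h3.symm
  obtain ⟨γ₁, δ₁, h5, h6, h7, h8⟩ := hn n₀
  filter_upwards [hev γ₀, hev δ₀, hev γ₁, hev δ₁] with b b1 b2 b3 b4
  rintro ⟨n, hb⟩
  rw [off_unique h4 (hb γ₀ δ₀ (b1.trans h1) (b2.trans h2) h3)] at h8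
  exact h8 (hb γ₁ δ₁ (b3.trans h5) (b4.trans h6) h7)

instance : CompactSpace TK := isCompact_iff_compactSpace.1 isClosed_adm.isCompact

/-- the continuous functions on the compact space -/
abbrev TX := C(TK, ℝ)

/-- coordinate functions -/
noncomputable def e (γ : G) : TX :=
  ⟨fun a => if a.1 γ = true then 1 else 0,
    (continuous_of_discreteTopology (f := fun b : Bool => if b = true then (1 : ℝ) else 0)).comp
      ((continuous_apply γ).comp continuous_subtype_val)⟩

lemma e_apply (γ : G) (a : TK) : e γ a = if a.1 γ = true then 1 else 0 := rfl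

lemma e_nonneg (γ : G) (a : TK) : 0 ≤ e γ a := by
  rw [e_apply]; split_ifs <;> norm_num

lemma e_le_one (γ : G) (a : TK) : e γ a ≤ 1 := by
  rw [e_apply]; split_ifs <;> norm_num

/-- the points coded by `c` -/
def dec (c : G) (i : ℕ) : G := fun j => c (Nat.pair i j + 1)

/-- the monomial coded by `c` -/
noncomputable def mon (c : G) : TX := ∏ i ∈ Finset.range (c 0), e (dec c i)

lemma mon_apply (c : G) (a : TK) : mon c a = ∏ i ∈ Finset.range (c 0), e (dec c i) a := by
  simp [mon]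

lemma mon_nonneg (c : G) (a : TK) : 0 ≤ mon c a := by
  rw [mon_apply]
  exact Finset.prod_nonneg fun i _ => e_nonneg _ _

lemma mon_le_one (c : G) (a : TK) : mon c a ≤ 1 := by
  rw [mon_apply]
  exact Finset.prod_le_one (fun i _ => e_nonneg _ _) fun i _ => e_le_one _ _

lemma mon_le_e (c : G) {i : ℕ} (hi : i < c 0) (a : TK) : mon c a ≤ e (dec c i) a := by
  by_cases h : a.1 (dec c i) = true
  · rw [e_apply, if_pos h]
    exact mon_le_one c a
  · rw [mon_apply, Finset.prod_eq_zero (Finset.mem_range.2 hi) (by rw [e_apply, if_neg h])]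
    exact e_nonneg _ _

lemma norm_mon_le (c : G) : ‖mon c‖ ≤ 1 :=
  (ContinuousMap.norm_le _ zero_le_one).2 fun a => by
    rw [Real.norm_of_nonneg (mon_nonneg c a)]
    exact mon_le_one c a

lemma exists_code (r : ℕ) (γ : ℕ → G) : ∃ c, mon c = ∏ i ∈ Finset.range r, e (γ i) := by
  refine ⟨fun n => Nat.casesOn n r fun k => γ k.unpair.1 k.unpair.2, ?_⟩
  refine Finset.prod_congr rfl fun i _ => congrArg e (funext fun j => ?_)
  show γ (Nat.pair i j).unpair.1 (Nat.pair i j).unpair.2 = γ i j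
  rw [Nat.unpair_pair]

lemma dense_mon : Dense ((Submodule.span ℝ (Set.range mon) : Submodule ℝ TX) : Set TX) := by
  have hsep : (Algebra.adjoin ℝ (Set.range e)).SeparatesPoints := by
    intro a b hab
    obtain ⟨γ, hγ⟩ := Function.ne_iff.1 fun h => hab (Subtype.ext h)
    refine ⟨e γ, ⟨e γ, Algebra.subset_adjoin ⟨γ, rfl⟩, rfl⟩, ?_⟩
    rw [e_apply, e_apply]
    revert hγ
    cases a.1 γ <;> cases b.1 γ <;> simp
  have htop := ContinuousMap.subalgebra_topologicalClosure_eq_top_of_separatesPoints _ hsep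
  have hsub : ((Submonoid.closure (Set.range e) : Submonoid TX) : Set TX) ⊆ Set.range mon := by
    intro y hy
    have : ∃ (r : ℕ) (γ : ℕ → G), y = ∏ i ∈ Finset.range r, e (γ i) := by
      induction hy using Submonoid.closure_induction_right with
      | one => exact ⟨0, 0, by simp⟩
      | mul_right x _ y hy ih =>
        obtain ⟨r, γ, rfl⟩ := ih
        obtain ⟨δ, rfl⟩ := hy
        refine ⟨r + 1, Function.update γ r δ, ?_⟩
        rw [Finset.prod_range_succ, Function.update_self]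
        refine congrArg (· * e δ) (Finset.prod_congr rfl fun i hi => ?_)
        rw [Function.update_of_ne (Finset.mem_range.1 hi).ne]
    obtain ⟨r, γ, rfl⟩ := this
    exact exists_code r γ
  intro y
  have hy : y ∈ (Algebra.adjoin ℝ (Set.range e)).topologicalClosure := by
    rw [htop]; trivial
  refine closure_mono (fun z hz => ?_) hy
  have h1 : z ∈ Subalgebra.toSubmodule (Algebra.adjoin ℝ (Set.range e)) := hz
  rw [Algebra.adjoin_eq_span] at h1
  exact Submodule.span_mono hsub h1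

/-- Functions carried by points that leave a branch at different levels overlap at most twice. -/
lemma comb (γ : G) (M : Finset ℕ) (δ : ℕ → G) (h : ∀ m ∈ M, Off γ m (δ m)) (y : ℕ → TX)
    (hy : ∀ m ∈ M, ∀ a, |y m a| ≤ e (δ m) a) : ‖∑ m ∈ M, y m‖ ≤ 2 := by
  classical
  refine (ContinuousMap.norm_le _ (by norm_num)).2 fun a => ?_
  obtain ⟨n, hn⟩ := a.2
  have key : ∀ m ∈ M, ∀ m' ∈ M, m < m' → a.1 (δ m) = true → a.1 (δ m') = true → m = n := by
    intro m hm m' hm' hlt h1 h2
    have d1 : Off (δ m) m (δ m') := by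
      refine ⟨fun i hi => ((h m' hm').1 i (hi.trans hlt)).trans ((h m hm).1 i hi).symm, ?_⟩
      rw [(h m' hm').1 m hlt]
      exact (h m hm).2.symm
    exact off_unique d1 (hn _ _ h1 h2 fun h0 => d1.2 (by rw [h0]))
  have hcard : (M.filter fun m => a.1 (δ m) = true).card ≤ 2 := by
    have h1 : ((M.filter fun m => a.1 (δ m) = true).erase n).card ≤ 1 := by
      refine Finset.card_le_one.2 fun m hm m' hm' => ?_
      obtain ⟨n1, hm⟩ := Finset.mem_erase.1 hm
      obtain ⟨n2, hm'⟩ := Finset.mem_erase.1 hm'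
      obtain ⟨p1, p2⟩ := Finset.mem_filter.1 hm
      obtain ⟨p3, p4⟩ := Finset.mem_filter.1 hm'
      rcases lt_trichotomy m m' with hl | hl | hl
      · exact absurd (key m p1 m' p3 hl p2 p4) n1
      · exact hl
      · exact absurd (key m' p3 m p1 hl p4 p2) n2
    have h2 := Finset.pred_card_le_card_erase (s := M.filter fun m => a.1 (δ m) = true) (a := n)
    omega
  rw [Real.norm_eq_abs, ContinuousMap.sum_apply]
  calc |∑ m ∈ M, y m a| ≤ ∑ m ∈ M, |y m a| := Finset.abs_sum_le_sum_abs _ _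
    _ ≤ ∑ m ∈ M, (if a.1 (δ m) = true then (1 : ℝ) else 0) :=
        Finset.sum_le_sum fun m hm => hy m hm a
    _ = ((M.filter fun m => a.1 (δ m) = true).card : ℝ) := by rw [Finset.sum_boole]
    _ ≤ 2 := by exact_mod_cast hcard

/-- Near every branch the generators carry levels, and a functional is large at a bounded number
of levels only. -/
def Lev {E : Type*} [NormedAddCommGroup E] [NormedSpace ℝ E] (x : G → E) : Prop :=
  ∀ γ, ∃ (C : ℝ) (O : ℕ → G → Prop),
    (∀ n, ∃ k, ∀ δ, ag δ γ k → x δ ≠ x γ → ∃ m, n ≤ m ∧ O m δ) ∧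
    ∀ (f : E →L[ℝ] ℝ) (ε : ℝ) (M : Finset ℕ), (∀ m ∈ M, ∃ δ, O m δ ∧ ε ≤ |f (x δ)|) →
      M.card * ε ≤ C * ‖f‖

lemma card_one (f : TX →L[ℝ] ℝ) (γ : G) (i : ℕ) (ε : ℝ) (M : Finset ℕ) (δ : ℕ → G)
    (h : ∀ m ∈ M, i < δ m 0 ∧ Off γ m (dec (δ m) i) ∧ ε ≤ |f (mon (δ m))|) :
    M.card * ε ≤ 2 * ‖f‖ := by
  classical
  have hc := comb γ M (fun m => dec (δ m) i) (fun m hm => (h m hm).2.1)
    (fun m => (if 0 ≤ f (mon (δ m)) then (1 : ℝ) else -1) • mon (δ m)) (fun m hm a => by
      have h1 := mon_le_e (δ m) (h m hm).1 a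
      have h2 := mon_nonneg (δ m) a
      rw [ContinuousMap.smul_apply, smul_eq_mul, abs_mul, abs_of_nonneg h2]
      split_ifs <;> simpa using h1)
  have h3 := f.le_of_opNorm_le_of_le le_rfl hc
  rw [map_sum, Real.norm_eq_abs] at h3
  have h4 : (M.card : ℝ) * ε ≤
      ∑ m ∈ M, f ((if 0 ≤ f (mon (δ m)) then (1 : ℝ) else -1) • mon (δ m)) := by
    rw [← nsmul_eq_mul]
    refine Finset.card_nsmul_le_sum _ _ _ fun m hm => (h m hm).2.2.trans ?_
    rw [map_smul, smul_eq_mul]
    split_ifs with h0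
    · rw [abs_of_nonneg h0, one_mul]
    · rw [abs_of_neg (not_le.1 h0), neg_one_mul]
  linarith [le_abs_self (∑ m ∈ M, f ((if 0 ≤ f (mon (δ m)) then (1 : ℝ) else -1) • mon (δ m)))]

theorem lev_mon : Lev mon := by
  classical
  intro γ
  refine ⟨γ 0 * 2, fun m δ => ∃ i, i < γ 0 ∧ i < δ 0 ∧ Off (dec γ i) m (dec δ i), fun n => ?_,
    fun f ε M h => ?_⟩
  · refine ⟨Nat.pair (γ 0) n + 1, fun δ h1 h2 => ?_⟩
    have h0 : δ 0 = γ 0 := h1 0 (by omega)
    have hex : ∃ i, i < γ 0 ∧ dec δ i ≠ dec γ i := by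
      by_contra hcon
      push Not at hcon
      refine h2 ?_
      unfold mon
      rw [h0]
      exact Finset.prod_congr rfl fun i hi => by rw [hcon i (Finset.mem_range.1 hi)]
    obtain ⟨i, hi, hne⟩ := hex
    obtain ⟨m, hm, ho⟩ := exists_off (k := n) (fun j hj => h1 _ (by
      have := Nat.pair_lt_pair_left j hi
      have := Nat.pair_lt_pair_right (γ 0) hj
      omega)) hne
    exact ⟨m, hm, i, hi, h0 ▸ hi, ho⟩
  · choose! δ h1 h2 using h
    choose! i h3 h4 h5 using h1
    rw [Finset.card_eq_sum_card_fiberwise (f := i) (t := Finset.range (γ 0))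
      fun m hm => Finset.mem_range.2 (h3 m hm)]
    push_cast
    rw [Finset.sum_mul]
    refine (Finset.sum_le_card_nsmul _ _ (2 * ‖f‖) fun j _ => ?_).trans ?_
    · refine card_one f (dec γ j) j ε _ δ fun m hm => ?_
      obtain ⟨p1, rfl⟩ := Finset.mem_filter.1 hm
      exact ⟨h4 m p1, h5 m p1, h2 m p1⟩
    · rw [Finset.card_range, nsmul_eq_mul, mul_assoc]

end Pool.Agent.Lib.MP_aafae6_an.TG
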